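import Pool.Agent.Helper70.EH.Goals4

/-!
# Project EH (MP_20ee5e_ag), packet C2: the coefficients, exponentials against polynomials
-/

set_option autoImplicit false

open Pool.Agent.Helper70.EH

namespace Pool.Agent.Helper67.EH.C2

noncomputable section

/-- `a (b+1) e'` -/
def ee (a b A X : ℝ) : ℝ := (b + 1) * (A * X - 2) - a * (a + b - 1) * (2 * X - 1)

/-- `2 a (b+1)` times the claim -/
def hh (a b A X : ℝ) : ℝ := 4 * (a + b) * ee a b A X +
  a * (b + 1) * (a + b - 1) * (4 * X - (a + b + 1)) - 2 * b * (b + 1) * (A * X - 2)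

theorem case2 (b X : ℝ) (hb : 0 ≤ b) (hX : (b ^ 2 + b + 2) / 2 ≤ X) : 0 ≤ hh 2 b 4 X := by
  obtain ⟨u, hu, rfl⟩ : ∃ u : ℝ, 0 ≤ u ∧ X = u + (b ^ 2 + b + 2) / 2 := ⟨X - (b ^ 2 + b + 2) / 2, by linarith, by ring⟩
  have h : hh 2 b 4 (u + (b ^ 2 + b + 2) / 2) = 2 + 2*b + 8*b*u + 2*b^2 + 2*b^3 + 8*u := by
    unfold hh ee; ring
  rw [h]; positivity

theorem case3 (b X : ℝ) (hb : 4 ≤ b) (hX : (b ^ 2 + b + 2) / 2 ≤ X) : 0 ≤ hh 3 b 8 X := by
  obtain ⟨u, hu, rfl⟩ : ∃ u : ℝ, 0 ≤ u ∧ X = u + (b ^ 2 + b + 2) / 2 := ⟨X - (b ^ 2 + b + 2) / 2, by linarith, by ring⟩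
  obtain ⟨t, ht, rfl⟩ : ∃ t : ℝ, 0 ≤ t ∧ b = t + 4 := ⟨b - 4, by linarith, by ring⟩
  have h : hh 3 (t + 4) 8 (u + ((t + 4) ^ 2 + (t + 4) + 2) / 2) =
      1256 + 1086*t + 60*t*u + 341*t^2 + 4*t^2*u + 45*t^3 + 2*t^4 + 152*u := by
    unfold hh ee; ring
  rw [h]; positivity

theorem case4 (b X : ℝ) (hb : 3 ≤ b) (hX : (b ^ 2 + b + 2) / 2 ≤ X) : 0 ≤ hh 4 b 16 X := by
  obtain ⟨u, hu, rfl⟩ : ∃ u : ℝ, 0 ≤ u ∧ X = u + (b ^ 2 + b + 2) / 2 := ⟨X - (b ^ 2 + b + 2) / 2, by linarith, by ring⟩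
  obtain ⟨t, ht, rfl⟩ : ∃ t : ℝ, 0 ≤ t ∧ b = t + 3 := ⟨b - 3, by linarith, by ring⟩
  have h : hh 4 (t + 3) 16 (u + ((t + 3) ^ 2 + (t + 3) + 2) / 2) =
      2864 + 2868*t + 224*t*u + 1060*t^2 + 16*t^2*u + 164*t^3 + 8*t^4 + 448*u := by
    unfold hh ee; ring
  rw [h]; positivity

theorem case5 (b X : ℝ) (hb : 2 ≤ b) (hX : (b ^ 2 + b + 2) / 2 ≤ X) : 0 ≤ hh 5 b 32 X := by
  obtain ⟨u, hu, rfl⟩ : ∃ u : ℝ, 0 ≤ u ∧ X = u + (b ^ 2 + b + 2) / 2 := ⟨X - (b ^ 2 + b + 2) / 2, by linarith, by ring⟩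
  obtain ⟨t, ht, rfl⟩ : ∃ t : ℝ, 0 ≤ t ∧ b = t + 2 := ⟨b - 2, by linarith, by ring⟩
  have h : hh 5 (t + 2) 32 (u + ((t + 2) ^ 2 + (t + 2) + 2) / 2) =
      3912 + 4690*t + 620*t*u + 2149*t^2 + 44*t^2*u + 415*t^3 + 22*t^4 + 984*u := by
    unfold hh ee; ring
  rw [h]; positivity

/-- what is left of `hh` after the bound for `A` -/
def rr (a b X : ℝ) : ℝ := X * a * (a + b - 1) * (8 / 15 * a + 4 / 15 * b + 4) -
  (a * (b + 1) * (a + b - 1) * (a + b + 1) - 4 * a * (a + b) * (a + b - 1) + 8 * (a + b) * (b + 1) - 4 * b * (b + 1))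

theorem rr_nonneg (a b X : ℝ) (ha : 6 ≤ a) (hb : 0 ≤ b) (hX : (b ^ 2 + b + 2) / 2 ≤ X) : 0 ≤ rr a b X := by
  obtain ⟨u, hu, rfl⟩ : ∃ u : ℝ, 0 ≤ u ∧ X = u + (b ^ 2 + b + 2) / 2 := ⟨X - (b ^ 2 + b + 2) / 2, by linarith, by ring⟩
  obtain ⟨s, hs, rfl⟩ : ∃ s : ℝ, 0 ≤ s ∧ a = s + 6 := ⟨a - 6, by linarith, by ring⟩
  have h : rr (s + 6) b (u + (b ^ 2 + b + 2) / 2) =
      678 + 1821/5*s + 209/15*s*b + 40/3*s*b*u + 503/15*s*b^2 + 4/15*s*b^2*u + 29/5*s*b^3 + 2/15*s*b^4 + 476/5*s*u +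
      s^2/15 * (35 * (b - 1)^2 + 39*b^2 + 911) + 4/5*s^2*b*u + 2/5*s^2*b^3 + 196/15*s^2*u +
      s^3/15 * ((2*b - 11/4)^2 + 727/16) + 8/15*s^3*u +
      446/5*b + 256/5*b*u + 386/5*b^2 + 8/5*b^2*u + 102/5*b^3 + 4/5*b^4 + 216*u := by
    unfold rr; ring
  rw [h]; positivity

theorem case6 (a b A X : ℝ) (ha : 6 ≤ a) (hb : 0 ≤ b) (hX : (b ^ 2 + b + 2) / 2 ≤ X)
    (hA : 32 / 15 * (a * (a - 1)) ≤ A) : 0 ≤ hh a b A X := by
  have hX0 : 0 < X := by nlinarith [sq_nonneg b]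
  have h1 : a + b - 1 ≤ (a - 1) * (b + 1) := by nlinarith
  have hr := rr_nonneg a b X ha hb hX
  have hc : 0 ≤ X * (b + 1) * (4 * a + 2 * b) := by positivity
  have h2 : 32 / 15 * (a * (a - 1)) * (X * (b + 1) * (4 * a + 2 * b)) ≤ A * (X * (b + 1) * (4 * a + 2 * b)) :=
    mul_le_mul_of_nonneg_right hA hc
  have h3 : 32 / 15 * a * X * (4 * a + 2 * b) * (a + b - 1) ≤
      32 / 15 * a * X * (4 * a + 2 * b) * ((a - 1) * (b + 1)) :=
    mul_le_mul_of_nonneg_left h1 (by positivity)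
  have h4 : hh a b A X = (A * (X * (b + 1) * (4 * a + 2 * b)) - 32 / 15 * (a * (a - 1)) * (X * (b + 1) * (4 * a + 2 * b))) +
      (32 / 15 * a * X * (4 * a + 2 * b) * ((a - 1) * (b + 1)) - 32 / 15 * a * X * (4 * a + 2 * b) * (a + b - 1)) +
      rr a b X := by
    unfold hh ee rr; ring
  rw [h4]
  linarith

theorem two_pow_ge (b : ℕ) : ((b : ℝ) ^ 2 + b + 2) / 2 ≤ 2 ^ b := by
  induction b with
  | zero => norm_num
  | succ n ih =>
    have h : 0 ≤ (n : ℝ) * ((n : ℝ) - 1) := by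
      rcases Nat.eq_zero_or_pos n with rfl | hn
      · simp
      · have : (1 : ℝ) ≤ n := by exact_mod_cast hn
        exact mul_nonneg (by linarith) (by linarith)
    have h2 : (2 : ℝ) ^ (n + 1) = 2 ^ n * 2 := pow_succ _ _
    push_cast
    rw [h2]
    nlinarith

theorem pow_a (a : ℕ) (ha : 6 ≤ a) : 32 / 15 * ((a : ℝ) * (a - 1)) ≤ 2 ^ a := by
  induction a, ha using Nat.le_induction with
  | base => norm_num
  | succ n hn ih =>
    have h : (6 : ℝ) ≤ n := by exact_mod_cast hn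
    push_cast
    rw [pow_succ]
    nlinarith

theorem cases_all (j b : ℕ) (hj : 1 ≤ j) (hN : 7 ≤ j + 1 + b) :
    0 ≤ hh ((j : ℝ) + 1) b (2 ^ (j + 1)) (2 ^ b) := by
  have hX := two_pow_ge b
  rcases lt_or_ge j 5 with h | h
  · have hj' : j = 1 ∨ j = 2 ∨ j = 3 ∨ j = 4 := by omega
    rcases hj' with rfl | rfl | rfl | rfl
    · have := case2 b (2 ^ b) (by positivity) hX
      norm_num at this ⊢
      exact this
    · have hb : 4 ≤ b := by omega
      have := case3 b (2 ^ b) (by exact_mod_cast hb) hX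
      norm_num at this ⊢
      exact this
    · have hb : 3 ≤ b := by omega
      have := case4 b (2 ^ b) (by exact_mod_cast hb) hX
      norm_num at this ⊢
      exact this
    · have hb : 2 ≤ b := by omega
      have := case5 b (2 ^ b) (by exact_mod_cast hb) hX
      norm_num at this ⊢
      exact this
  · have ha := pow_a (j + 1) (by omega)
    have h6 : (6 : ℝ) ≤ (j : ℝ) + 1 := by
      have : (5 : ℝ) ≤ j := by exact_mod_cast h
      linarith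
    refine case6 _ _ _ _ h6 (by positivity) hX ?_
    push_cast at ha
    exact ha

/-- from the bracket to the coefficients -/
theorem fin (a b N P A X c1 c2 c3 : ℝ) (ha : 0 < a) (hb : 0 ≤ b) (hN : N = a + b) (hP : 0 ≤ P)
    (h1 : c1 * a = N * P) (h2 : c2 * (b + 1) = N * P) (h3 : c3 * a = P * b) (hH : 0 ≤ hh a b A X) :
    0 ≤ 2 * ((A * X - 2) * c1 - (N - 1) * c2 * (2 * X - 1)) +
      (N - 1) * (2 * P * X - (N + 1) / 2 * P) - (A * X - 2) * c3 := by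
  have hab : 0 < a * (b + 1) := by positivity
  have e1 : (2 * ((A * X - 2) * c1 - (N - 1) * c2 * (2 * X - 1)) +
      (N - 1) * (2 * P * X - (N + 1) / 2 * P) - (A * X - 2) * c3) * (a * (b + 1)) = P * hh a b A X / 2 := by
    have : (2 * ((A * X - 2) * c1 - (N - 1) * c2 * (2 * X - 1)) +
      (N - 1) * (2 * P * X - (N + 1) / 2 * P) - (A * X - 2) * c3) * (a * (b + 1)) =
        2 * ((A * X - 2) * (b + 1) * (c1 * a) - (N - 1) * (2 * X - 1) * a * (c2 * (b + 1))) +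
        (N - 1) * (2 * P * X - (N + 1) / 2 * P) * (a * (b + 1)) - (A * X - 2) * (b + 1) * (c3 * a) := by ring
    rw [this, h1, h2, h3]
    unfold hh ee
    rw [hN]
    ring
  have hPH : 0 ≤ P * hh a b A X / 2 := by positivity
  by_contra hcon
  push Not at hcon
  have := mul_neg_of_neg_of_pos hcon hab
  linarith

theorem small (N j : ℕ) (hN : 5 ≤ N) (hN6 : N ≤ 6) (hj : 1 ≤ j) (hjN : j + 1 ≤ N) :
    0 ≤ (if N = 5 then 4 else 2) * ce N j +
      ((N : ℝ) - 1) * (9 / 5 * ((N - 1).choose j : ℝ) * 2 ^ (N - 1 - j) - ((N : ℝ) + 1) / 2 * ((N - 1).choose j : ℝ)) -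
      (2 ^ N - 2) * ((N - 1).choose (j + 1) : ℝ) := by
  have hN' : N = 5 ∨ N = 6 := by omega
  rcases hN' with rfl | rfl
  · have hj' : j = 1 ∨ j = 2 ∨ j = 3 ∨ j = 4 := by omega
    rcases hj' with rfl | rfl | rfl | rfl <;>
      norm_num [ce, show Nat.choose 5 2 = 10 from rfl, show Nat.choose 5 3 = 10 from rfl, show Nat.choose 5 4 = 5 from rfl,
        show Nat.choose 4 1 = 4 from rfl, show Nat.choose 4 2 = 6 from rfl, show Nat.choose 4 3 = 4 from rfl]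
  · have hj' : j = 1 ∨ j = 2 ∨ j = 3 ∨ j = 4 ∨ j = 5 := by omega
    rcases hj' with rfl | rfl | rfl | rfl | rfl <;>
      norm_num [ce, show Nat.choose 6 2 = 15 from rfl, show Nat.choose 6 3 = 20 from rfl, show Nat.choose 6 4 = 15 from rfl,
        show Nat.choose 6 5 = 6 from rfl, show Nat.choose 5 2 = 10 from rfl, show Nat.choose 5 3 = 10 from rfl,
        show Nat.choose 5 4 = 5 from rfl]

theorem t : G_C2 := by
  intro N j hN hj hjN
  refine ⟨fun hN6 => small N j hN hN6 hj hjN, fun hN7 => ?_⟩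
  obtain ⟨b, rfl⟩ : ∃ b, N = j + 1 + b := ⟨N - (j + 1), by omega⟩
  have hH := cases_all j b hj hN7
  have n1 : ((j + 1 + b).choose (j + 1) : ℝ) * ((j : ℝ) + 1) = ((j : ℝ) + 1 + b) * ((j + b).choose j : ℝ) := by
    have h := Nat.add_one_mul_choose_eq (j + b) j
    have e : j + b + 1 = j + 1 + b := by omega
    rw [e] at h
    have h' : (((j + 1 + b) * (j + b).choose j : ℕ) : ℝ) = (((j + 1 + b).choose (j + 1) * (j + 1) : ℕ) : ℝ) := by
      exact_mod_cast h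
    push_cast at h'
    linarith
  have n2 : ((j + 1 + b).choose j : ℝ) * ((b : ℝ) + 1) = ((j : ℝ) + 1 + b) * ((j + b).choose j : ℝ) := by
    have h := Nat.choose_mul_succ_eq (j + b) j
    have e : j + b + 1 = j + 1 + b := by omega
    have e' : j + 1 + b - j = b + 1 := by omega
    rw [e, e'] at h
    have h' : (((j + b).choose j * (j + 1 + b) : ℕ) : ℝ) = (((j + 1 + b).choose j * (b + 1) : ℕ) : ℝ) := by
      exact_mod_cast h
    push_cast at h'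
    linarith
  have n3 : ((j + b).choose (j + 1) : ℝ) * ((j : ℝ) + 1) = ((j + b).choose j : ℝ) * b := by
    have h := Nat.choose_succ_right_eq (j + b) j
    have e' : j + b - j = b := by omega
    rw [e'] at h
    exact_mod_cast h
  have hN' : (((j + 1 + b : ℕ)) : ℝ) = (j : ℝ) + 1 + b := by push_cast; ring
  have key := fin ((j : ℝ) + 1) b ((j : ℝ) + 1 + b) ((j + b).choose j) (2 ^ (j + 1))
    (2 ^ b) ((j + 1 + b).choose (j + 1)) ((j + 1 + b).choose j) ((j + b).choose (j + 1)) (by positivity)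
    (by positivity) rfl (by positivity) n1 n2 n3 hH
  have p1 : (2 : ℝ) ^ (j + 1 + b) = 2 ^ (j + 1) * 2 ^ b := pow_add _ _ _
  have p2 : j + 1 + b - j = b + 1 := by omega
  have p3 : j + 1 + b - 1 = j + b := by omega
  have p4 : j + b - j = b := by omega
  unfold ce
  rw [hN', p2, p3, p4, p1]
  convert key using 1
  rw [pow_succ]
  ring

end

end Pool.Agent.Helper67.EH.C2
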